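import Pool.Agent.P8H56.FL.Tr

/-!
# Sequences of flips without `ℚ`-factoriality are the same for varieties with a common finite cover

Let `Y` and `X` be normal projective varieties of the same dimension, with the function fields `L` and
`K`, and let `Z` be a variety with finite surjective morphisms `Z → Y` and `Z → X` (the function field
`M` of `Z` is a finite extension of `L` and of `K`, Galois or not). Let `D i` on `Y` and `E i` on `X`
be divisors (or b-divisors), with the coefficients `δL i P`, `δK i P` of their pullbacks at the prime
divisors `P` over `Y`, `X`, such that the pullbacks `δM1 i` of `D i` and `δM2 i` of `E i` to `Z` are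
`ℚ`-linearly equivalent: they differ by `div (h i) / q`. NO ring of sections is assumed to be finitely
generated.

**The models.** Let `X'` be a normal projective variety which is `ℚ`-Gorenstein, but perhaps not
`ℚ`-factorial, and let `X --> X'` be a birational map whose inverse contracts no divisor, such that
the prime divisors on `X` which it contracts have nonnegative discrepancies on `X'`. Assume that `K_X`
is `ℚ`-linearly equivalent to `∑ i, κ i * E i`. Let `k P` be the coefficients of the pullback of the
pushforward of the divisor `∑ i, κ i * E i` to `X'`, so that the discrepancy of `X'` along `P` is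
`- k P` plus a number which depends only on `P`. Let `A` be an ample `ℚ`-divisor on `X'` whose image on
`X` is `∑ i, lam i * E i`, and `α P` the coefficients of its pullback. For small rational `t ≥ 0` the
divisor `A + t K` on `X'` is ample; it has the coefficients `α P + t * k P`. The combinations
`m * (lam i + t * κ i)` which are integral have the same sections on `X` as `m (A + t K)` on `X'`, and
have no base points on `X'` for suitable `m`. This is `IsModel`. In the same way for `Y` and the
divisor `∑ i, κ i * D i`, the log canonical divisor `K_Y + Δ` for a boundary `Δ` which compensates the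
branching of `Z` over `X` and `Y`.

**The theorem.** The sequences of models of `X` of length `T ≤ ∞` in which no discrepancy decreases and
at least one increases in every step (`IsFlipSequence`) are in correspondence with those of `Y`: every
sequence over `Y` comes from one over `X`, and conversely, with the same classes `lam j` of ample
divisors, such that at every prime divisor `W` over `Z`, over `P` (index `e`) and `P'` (index `e'`),
`e' * k' j P' = e * k j P + ∑ i, κ i * ord_W (h i) / q` and the same for `α`: the models `X j` and
`Y j` have a common finite cover, the normalisation in `M`. In particular (`T = ∞`) there is an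
infinite sequence over `X` if and only if there is one over `Y`, and the lengths of the finite
sequences are the same. So the question for `X` (for the divisors in the span of the `E i`) is
equivalent to the termination of the log flips of the one pair `(Y, Δ)`: for instance for all quotients
`X = Z / H` of a Galois cover `Z` of `Y` with the group `G ⊇ H` such that `Cl(Z) ⊗ ℚ` is fixed by `G`.
-/

set_option autoImplicit false

open FF Pool.Agent.W602.GT

namespace Pool.Agent.Results.MP_a06248_ag.FiniteCorrespondences

section

variable {F : Type} [Field F] [Algebra ℂ F] {p : ℕ} (N : ℕ) (δ : Fin p → Place ℂ F → ℚ)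

/-- `f` is a section of `∑ i, μ i * D i`: its order at every prime divisor `P` over the variety (every
divisorial place `P` of `F`) is at least minus the coefficient `∑ i, μ i * δ i P` of the pullback of
`∑ i, μ i * D i`, or `f = 0`. -/
def IsSection (μ : Fin p → ℤ) (f : F) : Prop :=
  ∀ P : Place ℂ F, Divisorial N P → f = 0 ∨ - ∑ i, (μ i : ℚ) * δ i P ≤ P.ord f

/-- `α P` and `k P` are the coefficients, at the prime divisors `P` over `X`, of the pullbacks from a
model `X'` of an ample divisor `A` with the combination `lam` and of the divisor `K` with the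
combination `κ`: for all small rational `t ≥ 0`, the combinations `m * (lam i + t * κ i)` which are
integral have the same sections as the divisor `m (A + t K)` on `X'`, which has the coefficients
`m * (α P + t * k P)`; and for some `m ≥ 1` this divisor has for every `P` a section whose order at
`P` is the minimal one. -/
def IsModel (κ lam : Fin p → ℚ) (α k : Place ℂ F → ℚ) : Prop :=
  ∃ ε : ℚ, 0 < ε ∧ ∀ t : ℚ, 0 ≤ t → t ≤ ε →
    (∀ (m : ℕ) (ν : Fin p → ℤ), (∀ i, (m : ℚ) * (lam i + t * κ i) = ν i) → ∀ f : F,
      (IsSection N δ ν f ↔ ∀ P : Place ℂ F, Divisorial N P →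
        f = 0 ∨ - (m * (α P + t * k P)) ≤ P.ord f)) ∧
    ∃ m : ℕ, 1 ≤ m ∧ ∃ ν : Fin p → ℤ, (∀ i, (m : ℚ) * (lam i + t * κ i) = ν i) ∧
      ∀ P : Place ℂ F, Divisorial N P → ∃ f : F, f ≠ 0 ∧ IsSection N δ ν f ∧
        (P.ord f : ℚ) ≤ - (m * (α P + t * k P))

/-- A sequence of models with `T ≤ ∞` steps, with the classes `lam j` of ample divisors: in every step
no coefficient `k P` increases (no discrepancy decreases) and some coefficient becomes smaller. -/
def IsFlipSequence (κ : Fin p → ℚ) (T : ℕ∞) (lam : ℕ → Fin p → ℚ)
    (α k : ℕ → Place ℂ F → ℚ) : Prop :=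
  (∀ j : ℕ, (j : ℕ∞) ≤ T → IsModel N δ κ (lam j) (α j) (k j)) ∧
    ∀ j : ℕ, (j : ℕ∞) < T → (∀ P : Place ℂ F, Divisorial N P → k (j + 1) P ≤ k j P) ∧
      ∃ P : Place ℂ F, Divisorial N P ∧ k (j + 1) P < k j P

end

/-- `δ'` are the coefficients of the pullback to the finite cover (with the function field `K`) of the
divisor with the coefficients `δ` (over the function field `L`). -/
def IsPullback {L K : Type} [Field L] [Algebra ℂ L] [Field K] [Algebra ℂ K] [Algebra L K]
    (N : ℕ) (δ : Place ℂ L → ℚ) (δ' : Place ℂ K → ℚ) : Prop :=
  ∀ (P : Place ℂ L) (Q : Place ℂ K) (e : ℕ), Divisorial N P → Over Q P e → δ' Q = e * δ P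

/-- **Sequences of flips and finite correspondences.** Let `K` and `L` be function fields with a common
finite extension `M`, and `E i`, `D i` divisors over `K` and `L`, with the coefficients `δK i` and
`δL i`, whose pullbacks to `M` (`δM2 i` and `δM1 i`) differ by `div (h i) / q`. Then for every rational
combination `κ`, every `T ≤ ∞` and all classes `lam j`:
(1) for every sequence of models over `L` with `T` steps there is one over `K`, with the same classes
`lam j`, such that the pullbacks of the coefficients `α`, `k` to `M` differ by the corresponding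
combinations of the `div (h i) / q`;
(2) and conversely. -/
theorem result (p N : ℕ) (L K M : Type) [Field L] [Algebra ℂ L] [Field K] [Algebra ℂ K]
    [Field M] [Algebra ℂ M] [Algebra L M] [IsScalarTower ℂ L M] [FiniteDimensional L M]
    [Algebra K M] [IsScalarTower ℂ K M] [FiniteDimensional K M]
    (δL : Fin p → Place ℂ L → ℚ) (δK : Fin p → Place ℂ K → ℚ) (δM1 δM2 : Fin p → Place ℂ M → ℚ)
    (hL : ∀ i, IsPullback N (δL i) (δM1 i)) (hK : ∀ i, IsPullback N (δK i) (δM2 i))
    (q : ℕ) (hq : 1 ≤ q) (h : Fin p → M) (hh : ∀ i, h i ≠ 0)
    (hlin : ∀ (i : Fin p) (W : Place ℂ M), Divisorial N W →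
      δM2 i W = δM1 i W + (W.ord (h i) : ℚ) / q)
    (κ : Fin p → ℚ) (T : ℕ∞) (lam : ℕ → Fin p → ℚ) :
    (∀ α k : ℕ → Place ℂ L → ℚ, IsFlipSequence N δL κ T lam α k →
      ∃ α' k' : ℕ → Place ℂ K → ℚ, IsFlipSequence N δK κ T lam α' k' ∧
        ∀ j : ℕ, (j : ℕ∞) ≤ T → ∀ (W : Place ℂ M) (P : Place ℂ L) (P' : Place ℂ K) (e e' : ℕ),
          Divisorial N W → Over W P e → Over W P' e' →
          e' * α' j P' = e * α j P + ∑ i, lam j i * ((W.ord (h i) : ℚ) / q) ∧
          e' * k' j P' = e * k j P + ∑ i, κ i * ((W.ord (h i) : ℚ) / q)) ∧
    ∀ α' k' : ℕ → Place ℂ K → ℚ, IsFlipSequence N δK κ T lam α' k' →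
      ∃ α k : ℕ → Place ℂ L → ℚ, IsFlipSequence N δL κ T lam α k ∧
        ∀ j : ℕ, (j : ℕ∞) ≤ T → ∀ (W : Place ℂ M) (P : Place ℂ L) (P' : Place ℂ K) (e e' : ℕ),
          Divisorial N W → Over W P e → Over W P' e' →
          e' * α' j P' = e * α j P + ∑ i, lam j i * ((W.ord (h i) : ℚ) / q) ∧
          e' * k' j P' = e * k j P + ∑ i, κ i * ((W.ord (h i) : ℚ) / q) :=
  ⟨fun α k hs => Pool.Agent.P8H56.FL.transfer (N := N) (δ := δL) (δK := δK) (δ' := δM1)
      (δ2 := δM2) (fun i P Q e hP h => hL i P Q e hP h) (fun i P Q e hP h => hK i P Q e hP h)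
      hq ⟨hh, hlin⟩ (α := α) (k := k) hs,
    fun α' k' hs => Pool.Agent.P8H56.FL.transfer' (N := N) (δ := δL) (δK := δK) (δ' := δM1)
      (δ2 := δM2) (fun i P Q e hP h => hL i P Q e hP h) (fun i P Q e hP h => hK i P Q e hP h)
      hq ⟨hh, hlin⟩ (α' := α') (k' := k') hs⟩

end Pool.Agent.Results.MP_a06248_ag.FiniteCorrespondences
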