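import Pool.Agent.P8H56.FL.TermC

/-!
# Termination of flips without `ℚ`-factoriality: varieties with a common finite cover with a Mori
dream space

Let `Y` be a normal projective variety with the function field `L`, and let `D 1, ..., D p` be
`ℚ`-Cartier divisors on `Y` (or b-divisors) with the coefficients `δ i P` of their pullbacks at the
prime divisors `P` over `Y`. Let `C` be a convex cone in `ℚ ^ p` and assume that the ring of the
sections of the integral combinations of the `D i` which are in `C` is finitely generated. Examples:
* `C = ℚ ^ p` and a Mori dream space `Y`: toric varieties, spherical varieties, varieties of Fano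
  type, ..., or the product `Y` of a Mori dream space `Y 0` and of any varieties `Y j` (curves of any
  genus, abelian varieties, ...), with the pullbacks `D i` of one ample divisor on each `Y j`, `j ≥ 1`,
  and of all divisors on `Y 0`;
* `C` the cone of the nonnegative combinations, ANY smooth projective variety `Y`, and
  `D i = r (K_Y + Δ i)` for klt pairs `(Y, Δ i)` with big boundaries `Δ i` (Birkar, Cascini, Hacon and
  McKernan).

Let `X` be a normal projective variety of the same dimension, with the function field `K`, and `Z` a
variety with finite surjective morphisms `Z → Y` and `Z → X` (the function field `M` of `Z` is a finite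
extension of `L` and of `K`). Let `E i` be divisors on `X` with the coefficients `δK i P` such that the
pullbacks of `D i` and `E i` to `Z` are `ℚ`-linearly equivalent. Here `X` can be any finite cover
`X = Z` of `Y`, with the pullbacks `E i` of the `D i`, a quotient `X = Z / G` of such a cover, and so
on. The covers are arbitrary; `X` need not be a Mori dream space.

**The models.** Let `X'` be a normal projective variety which is `ℚ`-Gorenstein, but perhaps not
`ℚ`-factorial, and let `X --> X'` be a birational map whose inverse contracts no divisor, such that
the prime divisors on `X` which it contracts have nonnegative discrepancies on `X'` (for instance if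
`X'` has terminal singularities). Assume that `K_X` is `ℚ`-linearly equivalent to `∑ i, κ i * E i`.
Let `k P` be the coefficients of the pullback of the pushforward of the divisor `∑ i, κ i * E i` to
`X'`, so that the discrepancy of `X'` along `P` is `- k P` plus a number which depends only on `P`. Let
`A` be an ample `ℚ`-divisor on `X'` whose image on `X` is `∑ i, lam i * E i`, and `α P` the
coefficients of its pullback. For small rational `t ≥ 0` the divisor `A + t K` on `X'` is ample; it has
the coefficients `α P + t * k P`. The combinations `m * (lam i + t * κ i)` which are integral have the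
same sections on `X` as `m (A + t K)` on `X'`, and have no base points on `X'` for suitable `m`. This
is `IsModel`.

**The theorem.** There is a number `B`, which depends only on `Y`, the `D i` and `C` and not on `X` and
`Z` (their degrees, their branch divisors, ...), such that for every combination `κ`, among any `B + 1`
models of `X` with ample classes in `C` (more precisely, with `lam + t κ` in `C` for all small `t ≥ 0`)
there are two with the same coefficients `k P` (with the same discrepancies), and every sequence of
such models in which no discrepancy decreases and at least one increases in every step has less than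
`B` steps. (If the ring of sections has `n` homogeneous generators then `B = 2 ^ (2 ^ n)`.)

So let `X 0` be a projective `ℚ`-Gorenstein variety with terminal singularities and a finite cover `Z`
which is also a finite cover of a Mori dream space `Y`, such that the pullbacks of `Cl(X 0) ⊗ ℚ` and
`Cl(Y) ⊗ ℚ` to `Z` are equal (for instance, by the Lefschetz theorems, cyclic covers `X 0 = Z` of
dimension `≥ 4` which are branched along smooth ample divisors of smooth `Y`, and their quotients).
Then every sequence of flips in the sense of the problem which starts at `X 0` is finite, and its length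
is less than a number which depends only on `Y`. For all Galois covers of a Mori dream space this holds
for the flips which are equivariant under the Galois group.
-/

set_option autoImplicit false

open FF Pool.Agent.W602.GT

namespace Pool.Agent.Results.MP_a06248_ag.MoriDreamCorrespondences

section

variable {F : Type} [Field F] [Algebra ℂ F] {p : ℕ} (N : ℕ) (δ : Fin p → Place ℂ F → ℚ)

/-- `f` is a section of `∑ i, μ i * D i`: its order at every prime divisor `P` over the variety (every
divisorial place `P` of `F`) is at least minus the coefficient `∑ i, μ i * δ i P` of the pullback of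
`∑ i, μ i * D i`, or `f = 0`. -/
def IsSection (μ : Fin p → ℤ) (f : F) : Prop :=
  ∀ P : Place ℂ F, Divisorial N P → f = 0 ∨ - ∑ i, (μ i : ℚ) * δ i P ≤ P.ord f

/-- The ring of the sections of the integral combinations of the `D i` in the convex cone `C` (graded
by the group of the combinations) is finitely generated: there are finitely many sections `f b ≠ 0` of
combinations `g b` in `C` such that every section of a combination `μ` in `C` is a complex linear
combination of products of powers of the `f b` of total degree `μ`. -/
def FinitelyGenerated (C : PointedCone ℚ (Fin p → ℚ)) : Prop :=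
  ∃ (n : ℕ) (g : Fin n → Fin p → ℤ) (f : Fin n → F),
    (∀ b, f b ≠ 0 ∧ (fun i => (g b i : ℚ)) ∈ C ∧ IsSection N δ (g b) (f b)) ∧
    ∀ (μ : Fin p → ℤ), (fun i => (μ i : ℚ)) ∈ C → ∀ s : F, IsSection N δ μ s →
      s ∈ Submodule.span ℂ {t : F | ∃ e : Fin n → ℕ, (∀ i, ∑ b, (e b : ℤ) * g b i = μ i) ∧
        t = ∏ b, f b ^ e b}

/-- `α P` and `k P` are the coefficients, at the prime divisors `P` over `X`, of the pullbacks from a
model `X'` of an ample divisor `A` with the combination `lam` and of the divisor `K` with the
combination `κ`: for all small rational `t ≥ 0`, the combinations `m * (lam i + t * κ i)` which are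
integral have the same sections as the divisor `m (A + t K)` on `X'`, which has the coefficients
`m * (α P + t * k P)`; and for some `m ≥ 1` this divisor has for every `P` a section whose order at
`P` is the minimal one. -/
def IsModel (κ lam : Fin p → ℚ) (α k : Place ℂ F → ℚ) : Prop :=
  ∃ ε : ℚ, 0 < ε ∧ ∀ t : ℚ, 0 ≤ t → t ≤ ε →
    (∀ (m : ℕ) (ν : Fin p → ℤ), (∀ i, (m : ℚ) * (lam i + t * κ i) = ν i) → ∀ f : F,
      (IsSection N δ ν f ↔ ∀ P : Place ℂ F, Divisorial N P →
        f = 0 ∨ - (m * (α P + t * k P)) ≤ P.ord f)) ∧
    ∃ m : ℕ, 1 ≤ m ∧ ∃ ν : Fin p → ℤ, (∀ i, (m : ℚ) * (lam i + t * κ i) = ν i) ∧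
      ∀ P : Place ℂ F, Divisorial N P → ∃ f : F, f ≠ 0 ∧ IsSection N δ ν f ∧
        (P.ord f : ℚ) ≤ - (m * (α P + t * k P))

end

/-- The combinations `lam + t κ` are in the cone `C` for all small rational `t ≥ 0` (no condition if
`C` is the whole space). -/
def StaysIn {p : ℕ} (C : PointedCone ℚ (Fin p → ℚ)) (κ lam : Fin p → ℚ) : Prop :=
  ∃ ε : ℚ, 0 < ε ∧ ∀ t : ℚ, 0 ≤ t → t ≤ ε → (fun i => lam i + t * κ i) ∈ C

/-- `δ'` are the coefficients of the pullback to the finite cover (with the function field `K`) of the
divisor with the coefficients `δ` (over the function field `L`). -/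
def IsPullback {L K : Type} [Field L] [Algebra ℂ L] [Field K] [Algebra ℂ K] [Algebra L K]
    (N : ℕ) (δ : Place ℂ L → ℚ) (δ' : Place ℂ K → ℚ) : Prop :=
  ∀ (P : Place ℂ L) (Q : Place ℂ K) (e : ℕ), Divisorial N P → Over Q P e → δ' Q = e * δ P

/-- The divisors with the coefficients `δ1 i` and `δ2 i` are `ℚ`-linearly equivalent: they differ by
the divisor of a function `h i ≠ 0`, divided by `q`. -/
def LinearlyEquivalent {p : ℕ} {K : Type} [Field K] [Algebra ℂ K] (N : ℕ)
    (δ1 δ2 : Fin p → Place ℂ K → ℚ) : Prop :=
  ∃ (q : ℕ) (h : Fin p → K), 1 ≤ q ∧ (∀ i, h i ≠ 0) ∧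
    ∀ (i : Fin p) (P : Place ℂ K), Divisorial N P → δ2 i P = δ1 i P + (P.ord (h i) : ℚ) / q

/-- **Termination of flips without `ℚ`-factoriality for finite correspondences.** Let the `D i` with
the coefficients `δ i` be finitely many divisors over the function field `L`, and `C` a convex cone such
that the ring of the sections of the combinations in `C` is finitely generated. There is a number `B`
such that for ALL function fields `K` with a common finite extension `M` of `K` and `L`, all divisors
`E i` over `K`, with the coefficients `δK i`, whose pullbacks to `M` (`δM2`) are `ℚ`-linearly equivalent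
to the pullbacks of the `D i` (`δM1`), and every rational combination `κ`:
(1) among any `B + 1` models with classes in `C` there are two with the same coefficients `k P` at all
prime divisors `P`;
(2) every sequence of models with classes in `C` in which no coefficient `k P` increases and some
coefficient becomes smaller in every step (no discrepancy decreases and some discrepancy becomes
larger) has less than `B` steps. -/
theorem result (p N : ℕ) (L : Type) [Field L] [Algebra ℂ L] (δ : Fin p → Place ℂ L → ℚ)
    (C : PointedCone ℚ (Fin p → ℚ)) (hfg : FinitelyGenerated N δ C) :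
    ∃ B : ℕ, ∀ (K M : Type) [Field K] [Algebra ℂ K] [Field M] [Algebra ℂ M]
      [Algebra L M] [IsScalarTower ℂ L M] [FiniteDimensional L M]
      [Algebra K M] [IsScalarTower ℂ K M] [FiniteDimensional K M]
      (δK : Fin p → Place ℂ K → ℚ) (δM1 δM2 : Fin p → Place ℂ M → ℚ),
      (∀ i, IsPullback N (δ i) (δM1 i)) → (∀ i, IsPullback N (δK i) (δM2 i)) →
      LinearlyEquivalent N δM1 δM2 → ∀ κ : Fin p → ℚ,
      (∀ (lam : Fin (B + 1) → Fin p → ℚ) (α k : Fin (B + 1) → Place ℂ K → ℚ),
        (∀ j, StaysIn C κ (lam j) ∧ IsModel N δK κ (lam j) (α j) (k j)) →
        ∃ j j' : Fin (B + 1), j < j' ∧ ∀ P : Place ℂ K, Divisorial N P → k j P = k j' P) ∧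
      ∀ (T : ℕ) (lam : ℕ → Fin p → ℚ) (α k : ℕ → Place ℂ K → ℚ),
        (∀ j ≤ T, StaysIn C κ (lam j) ∧ IsModel N δK κ (lam j) (α j) (k j)) →
        (∀ j < T, (∀ P : Place ℂ K, Divisorial N P → k (j + 1) P ≤ k j P) ∧
          ∃ P : Place ℂ K, Divisorial N P ∧ k (j + 1) P < k j P) → T < B := by
  obtain ⟨n, g, f, hgen⟩ := hfg
  refine ⟨Fintype.card (Finset (Finset (Fin n))), ?_⟩
  intro K M _ _ _ _ _ _ _ _ _ _ δK δM1 δM2 h1 h2 h3 κ
  obtain ⟨q, h, hq, hh, hlin⟩ := h3
  exact Pool.Agent.P8H56.FL.termC (N := N) (δ := δ) (δK := δK) (δ' := δM1) (δ2 := δM2)
    (fun i P Q e hP h => h1 i P Q e hP h) (fun i P Q e hP h => h2 i P Q e hP h)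
    hq ⟨hh, hlin⟩ (g := g) (f := f) hgen κ

end Pool.Agent.Results.MP_a06248_ag.MoriDreamCorrespondences
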