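import Pool.Agent.P8H48.TE.Wqo

/-!
# Sequences of flips have finitely many smooth members

Batyrev's stringy E-function of a klt variety is computed on any log resolution from the
discrepancies. A flip does not decrease any discrepancy and increases one, so on a common log
resolution the (diagonal part of the) stringy E-function strictly decreases for large `L`. If
infinitely many members of a sequence of flips had stringy functions which are finite sums of powers
of members of a well-quasi-ordered set of functions (such as the powers `L^s` with exponents `s` in a
well-ordered set), then by Higman's lemma one of them would be dominated by a later one, a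
contradiction. This applies to smooth members (ordinary Hodge numbers) and to
members with quotient singularities of bounded exponent (orbifold Hodge numbers).
-/

set_option autoImplicit false

namespace Pool.Agent.Results.MP_a06248_ag.SmoothMembers

open Polynomial Filter Pool.Agent.P8H48.TE

/-- Let `X 0, X 1, ...` be an infinite sequence of flips. (1) The stringy function strictly decreases.
(2) Only finitely many members are smooth; at the largest `p` at which `h^{p,p}` of two smooth members
differs, it drops. (3) For each `m` only finitely many members have a stringy function which is a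
polynomial in `L^(1/m)` with natural coefficients. (4) For each well-quasi-ordered set `Φ` of functions
(such as the powers `L^s`, `s` in a well-ordered set `T`) and each function `G` only finitely many
members are effective. (5) Each finite set of functions contains the stringy functions of finitely many
members only. (6) If infinitely many steps are big (log discrepancy at most `dim - s₀`) only finitely
many members are effective above `s₀`. -/
theorem result (B : BirClass) (X : ℕ → Variety B) (h : Flips X) :
    (∀ i j, i < j → ∀ᶠ L : ℝ in atTop, (X j).stringy L < (X i).stringy L) ∧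
    ({i | Smooth (X i)}.Finite ∧
      ∀ i j, i < j → ∀ V W, (X i).IsRes V → B.divs V = ∅ → (X j).IsRes W → B.divs W = ∅ →
        0 < (B.diag V ∅ - B.diag W ∅).leadingCoeff) ∧
    (∀ m : ℕ, {i | Orb m (X i)}.Finite) ∧
    ((∀ Φ : Set (ℝ → ℝ), IsWqo Φ → ∀ G : ℝ → ℝ, {i | EffectiveFor Φ G (X i)}.Finite) ∧
      ∀ T : Set ℝ, T.IsWF → IsWqo {f : ℝ → ℝ | ∃ s ∈ T, f = fun L => L ^ s}) ∧
    (∀ Φ : Set (ℝ → ℝ), Φ.Finite →
      {i | ∃ f ∈ Φ, ∀ᶠ L : ℝ in atTop, (X i).stringy L = f L}.Finite) ∧
    (∀ Φ : Set (ℝ → ℝ), IsWqo Φ → ∀ (G : ℝ → ℝ) (s₀ : ℝ),
      {i | EffectiveForAbove s₀ Φ G (X i)}.Finite ∨ {i | Big s₀ (X i) (X (i + 1))}.Finite) := by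
  have horb : ∀ m : ℕ, {i | Orb m (X i)}.Finite := fun m =>
    (effective_finite h (range_isWF m) fun _ => 0).subset fun i hi => Orb.effective hi
  exact ⟨fun i j hij => h.lt hij,
    ⟨(horb 1).subset fun i hi => Smooth.orb hi,
      fun i j hij V W h1 h2 h3 h4 => lex (h.lt hij) h1 h2 h3 h4⟩,
    horb, ⟨fun Φ hΦ G => effectiveFor_finite h hΦ G, fun T hT => powers_wqo hT⟩,
    fun Φ hΦ => finite_functions h hΦ, fun Φ hΦ G s₀ => forAbove_finite h hΦ G s₀⟩

end Pool.Agent.Results.MP_a06248_ag.SmoothMembers
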